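import Pool.Agent.Results.MP_154a23_co.NoDim

/-!
# Realizability of distance orders: the dichotomy for all `n` and `d`

For `n ≤ d + 2` every strict total order on the pairs of `n` indices is the distance order of `n`
points of `ℝ ^ d`. For every `n` there is one strict total order such that for all `d ≤ n - 3` every
`n` points of `ℝ ^ d` violate one of its comparisons of two pairs with a common index, by a fixed
proportion of the diameter. (The plan of the first half is due to helper787.)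
-/

set_option autoImplicit false

namespace Pool.Agent.Results.MP_154a23_co.TripletMargin

open Finset Pool.Agent.Results.MP_154a23_co.NoDim

/-! ### Matrices with weak inequalities -/

/-- weak order hypotheses on a symmetric matrix with zero diagonal -/
structure WLex {m : ℕ} (D : Fin m → Fin m → ℝ) : Prop where
  symm : ∀ i j, D i j = D j i
  diag : ∀ i, D i i = 0
  level : ∀ i j k l : Fin m, i < j → k < l → i < k → D i j ≤ D k l
  dec : ∀ i j l : Fin m, i < j → j < l → D i l ≤ D i j

/-- an example with strict inequalities -/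
noncomputable def Em (m : ℕ) (i j : Fin m) : ℝ :=
  if i = j then 0 else (m : ℝ) * ((min i.val j.val : ℕ) : ℝ) +
    ((m : ℝ) - 1 - ((max i.val j.val : ℕ) : ℝ))

theorem Em_lt {m : ℕ} {i j : Fin m} (h : i < j) :
    Em m i j = (m : ℝ) * (i.val : ℝ) + ((m : ℝ) - 1 - (j.val : ℝ)) := by
  have h' : i.val < j.val := h
  unfold Em
  rw [if_neg h.ne, min_eq_left h'.le, max_eq_right h'.le]

theorem Em_lex (m : ℕ) : Lex (Em m) where
  symm := by
    intro i j
    unfold Em
    by_cases h : i = j
    · rw [h]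
    · rw [if_neg h, if_neg (Ne.symm h), min_comm, max_comm]
  diag := fun i => if_pos rfl
  level := by
    intro i j k l hij hkl hik
    rw [Em_lt hij, Em_lt hkl]
    have h1 : (i.val : ℝ) + 1 ≤ (k.val : ℝ) := by
      have : i.val + 1 ≤ k.val := hik
      exact_mod_cast this
    have h2 : (l.val : ℝ) < m := by exact_mod_cast l.isLt
    have h3 : (0 : ℝ) ≤ (j.val : ℝ) := Nat.cast_nonneg _
    have h4 : (0 : ℝ) ≤ (m : ℝ) := Nat.cast_nonneg _
    nlinarith [mul_nonneg h4 (sub_nonneg.2 h1)]
  dec := by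
    intro i j l hij hjl
    rw [Em_lt hij, Em_lt (hij.trans hjl)]
    have h1 : (j.val : ℝ) < (l.val : ℝ) := by
      have : j.val < l.val := hjl
      exact_mod_cast this
    linarith

theorem Q_add_mul {m : ℕ} (D E : Fin m → Fin m → ℝ) (ε : ℝ) (z : Fin m → ℝ) :
    Q (fun i j => D i j + ε * E i j) z = Q D z + ε * Q E z := by
  unfold Q
  rw [Finset.mul_sum, ← Finset.sum_add_distrib]
  refine Finset.sum_congr rfl fun i _ => ?_
  rw [Finset.mul_sum, ← Finset.sum_add_distrib]
  exact Finset.sum_congr rfl fun j _ => by ring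

theorem WLex.perturb {m : ℕ} {D : Fin m → Fin m → ℝ} (hD : WLex D) {ε : ℝ} (hε : 0 < ε) :
    Lex (fun i j => D i j + ε * Em m i j) where
  symm := fun i j => by
    rw [hD.symm i j, (Em_lex m).symm i j]
  diag := fun i => by
    rw [hD.diag, (Em_lex m).diag, mul_zero, add_zero]
  level := fun i j k l h1 h2 h3 => add_lt_add_of_le_of_lt (hD.level i j k l h1 h2 h3)
    (mul_lt_mul_of_pos_left ((Em_lex m).level i j k l h1 h2 h3) hε)
  dec := fun i j l h1 h2 => add_lt_add_of_le_of_lt (hD.dec i j l h1 h2)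
    (mul_lt_mul_of_pos_left ((Em_lex m).dec i j l h1 h2) hε)

/-- the maximum over patterned vectors is a global one, also for weak inequalities -/
theorem weak_global {m : ℕ} (hm : 2 ≤ m) {D : Fin m → Fin m → ℝ} (hD : WLex D) :
    ∃ x ∈ W m, ∑ i, x i = 0 ∧ ∑ i, x i ^ 2 = 1 ∧
      ∀ z : Fin m → ℝ, ∑ i, z i = 0 → Q D z ≤ Q D x * ∑ i, z i ^ 2 := by
  obtain ⟨x, hxW, hxs, hx1, hmax⟩ := exists_max hm D
  obtain ⟨y, hyW, hys, hy1, hymax⟩ := exists_max hm (Em m)
  refine ⟨x, hxW, hxs, hx1, fun z hz => ?_⟩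
  have key : ∀ ε : ℝ, 0 < ε → Q D z - Q D x * ∑ i, z i ^ 2 ≤
      ε * (Q (Em m) y * ∑ i, z i ^ 2 - Q (Em m) z) := by
    intro ε hε
    have hL := hD.perturb hε
    obtain ⟨w, hwW, hws, hw1, hwmax⟩ := exists_max hm (fun i j => D i j + ε * Em m i j)
    obtain ⟨a, ha1, ha2⟩ := strict_pattern hL hwW hws hw1 hwmax
    have h1 := global_max hL hws hw1 hwmax ha1 ha2 z hz
    rw [Q_add_mul, Q_add_mul] at h1
    have h2 := hmax w hwW hws
    have h3 := hymax w hwW hws
    rw [hw1, mul_one] at h2 h3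
    have hz2 : 0 ≤ ∑ i, z i ^ 2 := Finset.sum_nonneg fun i _ => sq_nonneg _
    have h4 : (Q D w + ε * Q (Em m) w) * ∑ i, z i ^ 2 ≤
        (Q D x + ε * Q (Em m) y) * ∑ i, z i ^ 2 :=
      mul_le_mul_of_nonneg_right (add_le_add h2 (mul_le_mul_of_nonneg_left h3 hε.le)) hz2
    have h5 : (Q D x + ε * Q (Em m) y) * ∑ i, z i ^ 2 =
        Q D x * ∑ i, z i ^ 2 + ε * (Q (Em m) y * ∑ i, z i ^ 2) := by ring
    have h6 : ε * (Q (Em m) y * ∑ i, z i ^ 2 - Q (Em m) z) =
        ε * (Q (Em m) y * ∑ i, z i ^ 2) - ε * Q (Em m) z := by ring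
    rw [h6]
    linarith
  obtain ⟨K, hK⟩ : ∃ K, K = Q (Em m) y * ∑ i, z i ^ 2 - Q (Em m) z := ⟨_, rfl⟩
  obtain ⟨c, hc⟩ : ∃ c, c = Q D z - Q D x * ∑ i, z i ^ 2 := ⟨_, rfl⟩
  rw [← hK, ← hc] at key
  by_contra hcon
  have hc0 : 0 < c := by
    rw [hc]
    push Not at hcon
    linarith
  have hK1 : 0 < |K| + 1 := by positivity
  have h1 := key (c / (2 * (|K| + 1))) (by positivity)
  have h2 : c / (2 * (|K| + 1)) * K ≤ c / (2 * (|K| + 1)) * (|K| + 1) :=
    mul_le_mul_of_nonneg_left (by linarith [le_abs_self K]) (by positivity)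
  have h3 : c / (2 * (|K| + 1)) * (|K| + 1) = c / 2 := by
    field_simp
  linarith

/-! ### Points -/

section Geometry

variable {d : ℕ}

theorem core_weak (p : Fin (d + 3) → EuclideanSpace ℝ (Fin d))
    (H : ∀ i j k l : Fin (d + 3), i < j → k < l → (i < k ∨ (i = k ∧ l < j)) →
      dist (p i) (p j) ≤ dist (p k) (p l)) (b : Fin (d + 3)) : p b = p 0 := by
  classical
  by_contra hb
  have hb0 : 0 < b := by
    rcases (Fin.zero_le b).eq_or_lt with h | h
    · exact absurd (by rw [← h]) hb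
    · exact h
  set q : Fin (d + 2) → EuclideanSpace ℝ (Fin d) := fun j => p j.succ with hq
  set D : Fin (d + 2) → Fin (d + 2) → ℝ := fun i j => dist (q i) (q j) ^ 2 with hDdef
  have hsq : ∀ {a b : ℝ}, 0 ≤ a → a ≤ b → a ^ 2 ≤ b ^ 2 := fun h1 h2 =>
    pow_le_pow_left₀ h1 h2 2
  have hD : WLex D :=
    { symm := fun i j => by simp only [hDdef, dist_comm]
      diag := fun i => by simp [hDdef]
      level := fun i j k l hij hkl hik => hsq dist_nonneg
        (H _ _ _ _ (Fin.succ_lt_succ_iff.mpr hij) (Fin.succ_lt_succ_iff.mpr hkl)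
          (Or.inl (Fin.succ_lt_succ_iff.mpr hik)))
      dec := fun i j l hij hjl => hsq dist_nonneg
        (H _ _ _ _ (Fin.succ_lt_succ_iff.mpr (hij.trans hjl)) (Fin.succ_lt_succ_iff.mpr hij)
          (Or.inr ⟨rfl, Fin.succ_lt_succ_iff.mpr hjl⟩)) }
  obtain ⟨x, hxW, hxs, hx1, hgl⟩ := weak_global (m := d + 2) (by omega) hD
  -- the maximum value is zero
  obtain ⟨z, hz0, hzs, hzq⟩ := exists_dependency q
  have hgl := hgl z hzs
  have hQz : Q D z = 0 := by
    rw [hDdef, Q_dist q z hzs, hzq]; simp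
  have hzpos : 0 < ∑ i, z i ^ 2 := by
    obtain ⟨i, hi⟩ := Function.ne_iff.mp hz0
    apply Finset.sum_pos' (fun i _ => sq_nonneg _) ⟨i, Finset.mem_univ i, ?_⟩
    have : z i ≠ 0 := hi
    positivity
  have hμ1 : 0 ≤ Q D x := by
    rw [hQz] at hgl
    by_contra hcon
    push Not at hcon
    have := mul_neg_of_neg_of_pos hcon hzpos
    linarith
  have hμ2 : Q D x = -2 * ‖∑ i, x i • q i‖ ^ 2 := Q_dist q x hxs
  have hxq : ∑ i, x i • q i = 0 := by
    have : ‖∑ i, x i • q i‖ ^ 2 = 0 := by
      have := sq_nonneg ‖∑ i, x i • q i‖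
      linarith
    exact norm_eq_zero.mp (pow_eq_zero_iff two_ne_zero |>.mp this)
  -- last negative entry
  have hexneg : ∃ i, x i < 0 := by
    by_contra hcon
    push Not at hcon
    have h0 : ∀ i, x i = 0 := by
      intro i
      exact (Finset.sum_eq_zero_iff_of_nonneg (fun i _ => hcon i)).mp hxs i (Finset.mem_univ i)
    simp [h0] at hx1
  obtain ⟨l, hl, hlmax⟩ : ∃ l, x l < 0 ∧ ∀ i, x i < 0 → i ≤ l := by
    obtain ⟨i, hi⟩ := hexneg
    obtain ⟨l, hl, hlm⟩ := Finset.exists_max_image (Finset.univ.filter (fun h => x h < 0))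
      (fun h => h) ⟨i, by simpa using hi⟩
    exact ⟨l, by simpa using hl, fun i hi => hlm i (by simpa using hi)⟩
  have hpos : ∀ i, l < i → 0 ≤ x i := by
    intro i hi
    by_contra hcon
    push Not at hcon
    exact absurd (hlmax i hcon) (not_le.mpr hi)
  have hneg : ∀ i, i < l → x i ≤ 0 := by
    obtain ⟨a, ha1, ha2⟩ := hxW
    intro i hi
    apply ha1
    have h1 : i.val < l.val := hi
    by_contra h2
    have h3 := ha2 l (by omega)
    linarith
  have hllast : l < Fin.last (d + 1) := by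
    rcases (Fin.le_last l).lt_or_eq with h | h
    · exact h
    · exfalso
      have : ∑ i, x i < 0 :=
        Finset.sum_neg' (fun i _ => by
          rcases (Fin.le_last i).lt_or_eq with h' | h'
          · exact hneg i (h ▸ h')
          · rw [h', ← h]; exact hl.le) ⟨l, Finset.mem_univ l, hl⟩
      linarith
  -- the function is positive at `q l`
  have hκ : 0 < D l (Fin.last (d + 1)) := by
    have h1 := H 0 b (Fin.succ l) (Fin.succ (Fin.last (d + 1))) hb0
      (Fin.succ_lt_succ_iff.mpr hllast) (Or.inl (Fin.succ_pos l))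
    have h2 : 0 < dist (p 0) (p b) := dist_pos.2 (Ne.symm hb)
    have h3 : 0 < dist (q l) (q (Fin.last (d + 1))) := lt_of_lt_of_le h2 h1
    simp only [hDdef]
    positivity
  have hphi1 : 0 < ∑ i, x i * dist (q l) (q i) ^ 2 := by
    have e1 : ∑ i, x i * dist (q l) (q i) ^ 2
        = ∑ i, x i * (D l i - D l (Fin.last (d + 1))) := by
      have : ∑ i, x i * (D l i - D l (Fin.last (d + 1)))
          = ∑ i, x i * D l i - (∑ i, x i) * D l (Fin.last (d + 1)) := by
        rw [Finset.sum_mul, ← Finset.sum_sub_distrib]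
        apply Finset.sum_congr rfl; intro i _; ring
      rw [this, hxs, zero_mul, sub_zero]
    rw [e1]
    apply Finset.sum_pos'
    · intro i _
      rcases lt_trichotomy i l with h | h | h
      · have h1 := hD.level i l l (Fin.last (d + 1)) h hllast h
        rw [hD.symm l i]
        have h2 := hneg i h
        nlinarith
      · rw [h, hD.diag]
        nlinarith
      · apply mul_nonneg (hpos i h)
        rcases (Fin.le_last i).lt_or_eq with h' | h'
        · have := hD.dec l i (Fin.last (d + 1)) h h'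
          linarith
        · rw [h']; linarith
    · refine ⟨l, Finset.mem_univ l, ?_⟩
      rw [hD.diag]
      nlinarith
  have hphi0 : ∑ i, x i * dist (p 0) (q i) ^ 2 ≤ 0 := by
    have e1 : ∑ i, x i * dist (p 0) (q i) ^ 2
        = ∑ i, x i * (dist (p 0) (q i) ^ 2 - dist (p 0) (q l) ^ 2) := by
      have : ∑ i, x i * (dist (p 0) (q i) ^ 2 - dist (p 0) (q l) ^ 2)
          = ∑ i, x i * dist (p 0) (q i) ^ 2 - (∑ i, x i) * dist (p 0) (q l) ^ 2 := by
        rw [Finset.sum_mul, ← Finset.sum_sub_distrib]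
        apply Finset.sum_congr rfl; intro i _; ring
      rw [this, hxs, zero_mul, sub_zero]
    rw [e1]
    apply Finset.sum_nonpos
    intro i _
    rcases lt_trichotomy i l with h | h | h
    · have h1 := hsq dist_nonneg (H 0 (Fin.succ l) 0 (Fin.succ i) (Fin.succ_pos l)
        (Fin.succ_pos i) (Or.inr ⟨rfl, Fin.succ_lt_succ_iff.mpr h⟩))
      have h2 := hneg i h
      have h3 : dist (p 0) (q l) ^ 2 ≤ dist (p 0) (q i) ^ 2 := h1
      nlinarith
    · rw [h, sub_self, mul_zero]
    · have h1 := hsq dist_nonneg (H 0 (Fin.succ i) 0 (Fin.succ l) (Fin.succ_pos i)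
        (Fin.succ_pos l) (Or.inr ⟨rfl, Fin.succ_lt_succ_iff.mpr h⟩))
      have h2 := hpos i h
      have h3 : dist (p 0) (q i) ^ 2 ≤ dist (p 0) (q l) ^ 2 := h1
      nlinarith
  rw [phi_const q x hxs hxq] at hphi1 hphi0
  linarith

/-- the comparisons of pairs with a common index imply all -/
theorem all_of_adjacent {n : ℕ} (p : Fin n → EuclideanSpace ℝ (Fin d))
    (H : ∀ (c u v : Fin n) (hu : c ≠ u) (hv : c ≠ v), ord n (pair c u hu) (pair c v hv) →
      dist (p c) (p u) ≤ dist (p c) (p v)) (i j k l : Fin n) (hij : i < j) (hkl : k < l)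
    (h : i < k ∨ (i = k ∧ l < j)) : dist (p i) (p j) ≤ dist (p k) (p l) := by
  -- a comparison at `i`
  have h1 : ∀ i j k : Fin n, i < k → k < j → dist (p i) (p j) ≤ dist (p i) (p k) := by
    intro i j k hik hkj
    exact H i j k (hik.trans hkj).ne hik.ne (key_lt (hik.trans hkj) hik (Or.inr ⟨rfl, hkj⟩))
  -- a comparison at the middle index
  have h2 : ∀ i k l : Fin n, i < k → k < l → dist (p i) (p k) ≤ dist (p k) (p l) := by
    intro i k l hik hkl
    rw [dist_comm (p i) (p k)]
    refine H k i l hik.ne' hkl.ne ?_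
    rw [pair_comm hik.ne']
    exact key_lt hik hkl (Or.inl hik)
  rcases h with h | ⟨rfl, h⟩
  · rcases lt_trichotomy j k with hjk | rfl | hkj
    · exact (h2 i j k hij hjk).trans (h2 j k l hjk hkl)
    · exact h2 i j l hij hkl
    · exact (h1 i j k h hkj).trans (h2 i k l h hkl)
  · exact h1 i j l hkl h

/-- `n ≥ d + 3` points with the weak inequalities coincide -/
theorem all_equal {n : ℕ} (hn : d + 3 ≤ n) (p : Fin n → EuclideanSpace ℝ (Fin d))
    (H : ∀ (c u v : Fin n) (hu : c ≠ u) (hv : c ≠ v), ord n (pair c u hu) (pair c v hv) →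
      dist (p c) (p u) ≤ dist (p c) (p v)) (a b : Fin n) : p a = p b := by
  classical
  have hcard : ({a, b} : Finset (Fin n)).card ≤ d + 3 := by
    refine (Finset.card_le_two).trans (by omega)
  obtain ⟨s, hs, hsc⟩ := Finset.exists_superset_card_eq (s := ({a, b} : Finset (Fin n)))
    hcard (by rw [Fintype.card_fin]; exact hn)
  let f := s.orderEmbOfFin hsc
  have hr : Set.range f = (s : Set (Fin n)) := Finset.range_orderEmbOfFin s hsc
  have hall := core_weak (fun i => p (f i)) (fun i j k l hij hkl h =>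
    all_of_adjacent p H (f i) (f j) (f k) (f l) (f.strictMono hij) (f.strictMono hkl) (by
      rcases h with h | ⟨rfl, h⟩
      · exact Or.inl (f.strictMono h)
      · exact Or.inr ⟨rfl, f.strictMono h⟩))
  have ha : a ∈ Set.range f := by
    rw [hr]
    exact hs (Finset.mem_insert_self a {b})
  have hb : b ∈ Set.range f := by
    rw [hr]
    exact hs (Finset.mem_insert_of_mem (Finset.mem_singleton_self b))
  obtain ⟨i, rfl⟩ := ha
  obtain ⟨j, rfl⟩ := hb
  exact (hall i).trans (hall j).symm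

/-- the comparisons with a common index -/
noncomputable def T (n : ℕ) : Finset (Fin n × Fin n × Fin n) :=
  open Classical in
  Finset.univ.filter fun t => ∃ (hu : t.1 ≠ t.2.1) (hv : t.1 ≠ t.2.2),
    ord n (pair t.1 t.2.1 hu) (pair t.1 t.2.2 hv)

theorem mem_T {n : ℕ} (t : Fin n × Fin n × Fin n) : t ∈ T n ↔
    ∃ (hu : t.1 ≠ t.2.1) (hv : t.1 ≠ t.2.2), ord n (pair t.1 t.2.1 hu) (pair t.1 t.2.2 hv) := by
  classical
  unfold T
  simp

/-- the defect of a comparison -/
noncomputable def gp {n : ℕ} (t : Fin n × Fin n × Fin n)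
    (p : Fin n → EuclideanSpace ℝ (Fin d)) : ℝ :=
  max (dist (p t.1) (p t.2.1) - dist (p t.1) (p t.2.2)) 0

theorem margin {n : ℕ} (hn : d + 3 ≤ n) : ∃ δ : ℝ, 0 < δ ∧
    ∀ p : Fin n → EuclideanSpace ℝ (Fin d), (∀ i j, dist (p i) (p j) ≤ 1) →
      (∃ i j, dist (p i) (p j) = 1) → ∃ t ∈ T n,
        dist (p t.1) (p t.2.2) + δ ≤ dist (p t.1) (p t.2.1) := by
  classical
  have hn0 : 0 < n := by omega
  let o : Fin n := ⟨0, hn0⟩
  let G : (Fin n → EuclideanSpace ℝ (Fin d)) → ℝ := fun p => ∑ t ∈ T n, gp t p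
  have hGc : Continuous G := by
    refine continuous_finsetSum _ fun t _ => ?_
    unfold gp
    fun_prop
  let K : Set (Fin n → EuclideanSpace ℝ (Fin d)) :=
    {p | p o = 0 ∧ (∀ i j, dist (p i) (p j) ≤ 1) ∧ ∃ i j, dist (p i) (p j) = 1}
  have hKc : IsCompact K := by
    refine Metric.isCompact_of_isClosed_isBounded ?_ ?_
    · have c1 : IsClosed {p : Fin n → EuclideanSpace ℝ (Fin d) | p o = 0} :=
        isClosed_eq (continuous_apply o) continuous_const
      have c2 : IsClosed {p : Fin n → EuclideanSpace ℝ (Fin d) |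
          ∀ i j, dist (p i) (p j) ≤ 1} := by
        simp only [Set.ofPred_forall]
        refine isClosed_iInter fun i => isClosed_iInter fun j => ?_
        exact isClosed_le (by fun_prop) continuous_const
      have c3 : IsClosed {p : Fin n → EuclideanSpace ℝ (Fin d) |
          ∃ i j, dist (p i) (p j) = 1} := by
        have h1 : {p : Fin n → EuclideanSpace ℝ (Fin d) | ∃ i j, dist (p i) (p j) = 1} =
            ⋃ i, ⋃ j, {p | dist (p i) (p j) = 1} := by
          ext p
          simp
        rw [h1]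
        refine isClosed_iUnion_of_finite fun i => isClosed_iUnion_of_finite fun j => ?_
        exact isClosed_eq (by fun_prop) continuous_const
      exact c1.inter (c2.inter c3)
    · refine (Metric.isBounded_iff_subset_closedBall 0).2 ⟨1, ?_⟩
      rintro p ⟨h1, h2, -⟩
      rw [mem_closedBall_zero_iff, pi_norm_le_iff_of_nonneg zero_le_one]
      intro i
      have h3 := h2 i o
      rw [h1, dist_zero_right] at h3
      exact h3
  have hpos : ∀ p ∈ K, 0 < G p := by
    rintro p ⟨-, -, i, j, hij⟩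
    by_contra hcon
    have hz : ∀ t ∈ T n, gp t p = 0 := by
      have h1 : G p = 0 := le_antisymm (not_lt.1 hcon)
        (Finset.sum_nonneg fun t _ => le_max_right _ _)
      exact (Finset.sum_eq_zero_iff_of_nonneg fun t _ => le_max_right _ _).1 h1
    have h2 : p i = p j := all_equal hn p (fun c u v hu hv h => by
      have h3 := hz (c, u, v) ((mem_T _).2 ⟨hu, hv, h⟩)
      have h4 : dist (p c) (p u) - dist (p c) (p v) ≤ 0 := by
        rw [← h3]
        exact le_max_left _ _
      linarith) i j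
    rw [h2, dist_self] at hij
    exact zero_ne_one hij
  have hTpos : 0 < ((T n).card : ℝ) + 1 := by positivity
  have hmin : ∃ c : ℝ, 0 < c ∧ ∀ p ∈ K, c ≤ G p := by
    rcases K.eq_empty_or_nonempty with h | h
    · exact ⟨1, one_pos, fun p hp => by rw [h] at hp; exact absurd hp (Set.notMem_empty p)⟩
    · obtain ⟨p₀, hp₀, hmn⟩ := hKc.exists_isMinOn h hGc.continuousOn
      exact ⟨G p₀, hpos p₀ hp₀, fun p hp => hmn hp⟩
  obtain ⟨c, hc, hcK⟩ := hmin
  refine ⟨c / ((T n).card + 1), div_pos hc hTpos, ?_⟩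
  intro p h1 h2
  -- translation
  have hp' : (fun i => p i - p o) ∈ K := by
    refine ⟨sub_self _, fun i j => ?_, ?_⟩
    · rw [dist_sub_right]
      exact h1 i j
    · obtain ⟨i, j, h⟩ := h2
      exact ⟨i, j, by rw [dist_sub_right]; exact h⟩
  have h3 := hcK _ hp'
  by_contra hcon
  push Not at hcon
  have h4 : ∀ t ∈ T n, gp t (fun i => p i - p o) ≤ c / ((T n).card + 1) := by
    intro t ht
    have h5 := hcon t ht
    unfold gp
    refine max_le ?_ (div_pos hc hTpos).le
    rw [dist_sub_right, dist_sub_right]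
    linarith
  have h5 : G (fun i => p i - p o) ≤ (T n).card * (c / ((T n).card + 1)) := by
    have h6 := Finset.sum_le_card_nsmul (T n) (fun t => gp t (fun i => p i - p o)) _ h4
    rw [nsmul_eq_mul] at h6
    exact h6
  have h6 : ((T n).card : ℝ) * (c / ((T n).card + 1)) < c := by
    rw [mul_div_assoc', div_lt_iff₀ hTpos]
    nlinarith
  linarith

end Geometry

/-! ### The positive half: matrices of squared distances -/

/-- the number of pairs before a pair -/
noncomputable def N {n : ℕ} (r : Pairs n → Pairs n → Prop) (e : Pairs n) : ℕ :=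
  {x | r x e}.ncard

theorem finite_pairs (n : ℕ) : Finite (Pairs n) := by
  unfold Pairs
  infer_instance

theorem N_lt {n : ℕ} {r : Pairs n → Pairs n → Prop} (hr : IsStrictTotalOrder (Pairs n) r)
    {e e' : Pairs n} (h : r e e') : N r e < N r e' := by
  have := finite_pairs n
  refine Set.ncard_lt_ncard ⟨fun x hx => ?_, fun hsub => ?_⟩ (Set.toFinite _)
  · exact trans_of r hx h
  · exact irrefl_of r e (hsub h)

noncomputable def gg {n : ℕ} (i j : Fin n) : ℝ := if i = j then 0 else 1

noncomputable def hh {n : ℕ} (r : Pairs n → Pairs n → Prop) (i j : Fin n) : ℝ :=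
  if h : i = j then 0 else (N r (pair i j h) : ℝ)

noncomputable def DD {n : ℕ} (r : Pairs n → Pairs n → Prop) (t : ℝ) (i j : Fin n) : ℝ :=
  gg i j * Real.exp (t * hh r i j)

theorem DD_diag {n : ℕ} (r : Pairs n → Pairs n → Prop) (t : ℝ) (i : Fin n) : DD r t i i = 0 := by
  unfold DD gg
  rw [if_pos rfl, zero_mul]

theorem DD_val {n : ℕ} (r : Pairs n → Pairs n → Prop) (t : ℝ) {i j : Fin n} (h : i ≠ j) :
    DD r t i j = Real.exp (t * (N r (pair i j h) : ℝ)) := by
  unfold DD gg hh
  rw [if_neg h, dif_neg h, one_mul]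

theorem DD_symm {n : ℕ} (r : Pairs n → Pairs n → Prop) (t : ℝ) (i j : Fin n) :
    DD r t i j = DD r t j i := by
  by_cases h : i = j
  · rw [h]
  · rw [DD_val r t h, DD_val r t (Ne.symm h), pair_comm h]

theorem cont_Q {n : ℕ} (r : Pairs n → Pairs n → Prop) :
    Continuous fun z : ℝ × (Fin n → ℝ) => Q (DD r z.1) z.2 := by
  unfold Q DD
  fun_prop

theorem Q_zero {n : ℕ} (r : Pairs n → Pairs n → Prop) (x : Fin n → ℝ) (hx : ∑ i, x i = 0) :
    Q (DD r 0) x = -∑ i, x i ^ 2 := by
  have h1 : ∀ i, ∑ j, DD r 0 i j * x i * x j = x i * (∑ j, x j) - x i ^ 2 := by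
    intro i
    have h2 : ∀ j, DD r 0 i j * x i * x j = x i * x j - (if j = i then x i * x j else 0) := by
      intro j
      by_cases h : j = i
      · rw [h, DD_diag, if_pos rfl]
        ring
      · rw [DD_val r 0 (Ne.symm h), if_neg h, zero_mul, Real.exp_zero]
        ring
    rw [Finset.sum_congr rfl fun j _ => h2 j, Finset.sum_sub_distrib,
      Finset.sum_ite_eq' Finset.univ i, if_pos (Finset.mem_univ i), Finset.mul_sum]
    ring
  unfold Q
  rw [Finset.sum_congr rfl fun i _ => h1 i, hx]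
  simp only [mul_zero, zero_sub, Finset.sum_neg_distrib]

theorem scale_neg {n : ℕ} (D : Fin n → Fin n → ℝ) (h : ∀ x ∈ S n, Q D x < 0) (x : Fin n → ℝ)
    (hx : ∑ i, x i = 0) : Q D x ≤ 0 := by
  by_cases h0 : ∑ i, x i ^ 2 = 0
  · have hx0 : ∀ i, x i = 0 := by
      intro i
      have := (Finset.sum_eq_zero_iff_of_nonneg (fun i _ => sq_nonneg (x i))).mp h0 i
        (Finset.mem_univ i)
      exact pow_eq_zero_iff two_ne_zero |>.mp this
    unfold Q
    simp [hx0]
  · have hpos : 0 < ∑ i, x i ^ 2 :=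
      lt_of_le_of_ne (Finset.sum_nonneg fun i _ => sq_nonneg _) (Ne.symm h0)
    have hc2 : (1 / √(∑ i, x i ^ 2)) ^ 2 * ∑ i, x i ^ 2 = 1 := by
      rw [div_pow, Real.sq_sqrt hpos.le]
      field_simp
    have h1 := h (fun i => (1 / √(∑ i, x i ^ 2)) * x i) ⟨by
      rw [← Finset.mul_sum, hx, mul_zero], by
      refine Eq.trans ?_ hc2
      rw [Finset.mul_sum]
      exact Finset.sum_congr rfl fun i _ => by ring⟩
    rw [Q_smul] at h1
    have h2 : 0 < (1 / √(∑ i, x i ^ 2)) ^ 2 := by positivity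
    by_contra hcon
    push Not at hcon
    have := mul_pos h2 hcon
    linarith

theorem big {n : ℕ} (hn : 3 ≤ n) {r : Pairs n → Pairs n → Prop}
    (hr : IsStrictTotalOrder (Pairs n) r) :
    ∃ y : Fin n → ℝ, ∑ i, y i = 0 ∧ 0 < Q (DD r 4) y := by
  classical
  have := finite_pairs n
  have hne : Nonempty (Pairs n) := ⟨pair ⟨0, by omega⟩ ⟨1, by omega⟩ (by
    rw [ne_eq, Fin.mk.injEq]; omega)⟩
  obtain ⟨e, he⟩ := Finite.exists_max (N r)
  obtain ⟨a, b, hab, rfl⟩ := exists_pair e
  obtain ⟨c, hc⟩ : ∃ c : Fin n, c ∉ ({a, b} : Finset (Fin n)) := by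
    by_contra hcon
    push Not at hcon
    have h1 : (Finset.univ : Finset (Fin n)).card ≤ ({a, b} : Finset (Fin n)).card :=
      Finset.card_le_card fun c _ => hcon c
    rw [Finset.card_univ, Fintype.card_fin] at h1
    have h2 := Finset.card_le_two (a := a) (b := b)
    omega
  rw [Finset.mem_insert, Finset.mem_singleton, not_or] at hc
  obtain ⟨hca, hcb⟩ := hc
  have hsm : ∀ (u : Fin n) (hu : c ≠ u), N r (pair c u hu) + 1 ≤ N r (pair a b hab.ne) := by
    intro u hu
    have hne : pair c u hu ≠ pair a b hab.ne := by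
      intro h
      have h1 : s(c, u) = s(a, b) := congrArg Subtype.val h
      rw [Sym2.eq_iff] at h1
      rcases h1 with ⟨h1, -⟩ | ⟨h1, -⟩
      · exact hca h1
      · exact hcb h1
    rcases trichotomous_of r (pair c u hu) (pair a b hab.ne) with h | h | h
    · exact N_lt hr h
    · exact absurd h hne
    · exact absurd (N_lt hr h) (not_lt.2 (he _))
  let y : Fin n → ℝ := fun j => (if j = a then 1 else 0) + (if j = b then 1 else 0) -
    2 * (if j = c then 1 else 0)
  have hlin : ∀ w : Fin n → ℝ, ∑ j, w j * y j = w a + w b - 2 * w c := by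
    intro w
    have h1 : ∀ j, w j * y j = (if j = a then w j else 0) + (if j = b then w j else 0) -
        (if j = c then 2 * w j else 0) := by
      intro j
      change w j * ((if j = a then 1 else 0) + (if j = b then 1 else 0) -
        2 * (if j = c then 1 else 0)) = _
      split_ifs <;> ring
    rw [Finset.sum_congr rfl fun j _ => h1 j, Finset.sum_sub_distrib, Finset.sum_add_distrib,
      Finset.sum_ite_eq' Finset.univ a, Finset.sum_ite_eq' Finset.univ b,
      Finset.sum_ite_eq' Finset.univ c, if_pos (Finset.mem_univ a), if_pos (Finset.mem_univ b),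
      if_pos (Finset.mem_univ c)]
  refine ⟨y, ?_, ?_⟩
  · have h1 := hlin fun _ => 1
    simp only [one_mul] at h1
    rw [h1]
    ring
  · have h1 : Q (DD r 4) y = ∑ i, (∑ j, DD r 4 i j * y j) * y i := by
      unfold Q
      refine Finset.sum_congr rfl fun i _ => ?_
      rw [Finset.sum_mul]
      exact Finset.sum_congr rfl fun j _ => by ring
    rw [h1, hlin]
    simp only [hlin]
    rw [DD_diag, DD_diag, DD_diag, DD_symm r 4 b a, DD_symm r 4 a c, DD_symm r 4 b c]
    have h2 : ∀ (u : Fin n) (hu : c ≠ u), 5 * DD r 4 c u ≤ DD r 4 a b := by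
      intro u hu
      rw [DD_val r 4 hu, DD_val r 4 hab.ne]
      have h3 : (N r (pair c u hu) : ℝ) + 1 ≤ (N r (pair a b hab.ne) : ℝ) := by
        exact_mod_cast hsm u hu
      have h4 : Real.exp (4 * (N r (pair c u hu) : ℝ)) * Real.exp 4 ≤
          Real.exp (4 * (N r (pair a b hab.ne) : ℝ)) := by
        rw [← Real.exp_add]
        exact Real.exp_le_exp.2 (by linarith)
      have h5 : (5 : ℝ) ≤ Real.exp 4 := by
        have := Real.add_one_le_exp (4 : ℝ)
        linarith
      have h6 := Real.exp_pos (4 * (N r (pair c u hu) : ℝ))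
      nlinarith
    have h3 := h2 a hca
    have h4 := h2 b hcb
    have h5 : 0 < DD r 4 a b := by
      rw [DD_val r 4 hab.ne]
      exact Real.exp_pos _
    linarith

theorem partA {n : ℕ} (hn : 3 ≤ n) (r : Pairs n → Pairs n → Prop)
    (hr : IsStrictTotalOrder (Pairs n) r) : ∃ D : Fin n → Fin n → ℝ, (∀ i j, D i j = D j i) ∧
      (∀ i, D i i = 0) ∧ (∀ i j, i ≠ j → 0 < D i j) ∧
      (∀ (i j k l : Fin n) (hij : i ≠ j) (hkl : k ≠ l), r (pair i j hij) (pair k l hkl) →
        D i j < D k l) ∧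
      (∀ x : Fin n → ℝ, ∑ i, x i = 0 → Q D x ≤ 0) ∧
      ∃ x : Fin n → ℝ, x ≠ 0 ∧ ∑ i, x i = 0 ∧ Q D x = 0 := by
  classical
  have hcont := cont_Q r
  let A : Set ℝ := Set.Icc 0 4 ∩ {t | ∀ x : Fin n → ℝ, ∑ i, x i = 0 → Q (DD r t) x ≤ 0}
  have hAc : IsCompact A := by
    refine isCompact_Icc.inter_right ?_
    simp only [Set.ofPred_forall]
    refine isClosed_iInter fun x => isClosed_iInter fun _ => ?_
    exact isClosed_le (hcont.comp (continuous_id.prodMk continuous_const)) continuous_const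
  have h0A : (0 : ℝ) ∈ A := by
    refine ⟨⟨le_rfl, by norm_num⟩, fun x hx => ?_⟩
    rw [Q_zero r x hx]
    have : 0 ≤ ∑ i, x i ^ 2 := Finset.sum_nonneg fun i _ => sq_nonneg _
    linarith
  obtain ⟨t, htA, htmax⟩ := hAc.exists_isGreatest ⟨0, h0A⟩
  have ht4 : t < 4 := by
    refine lt_of_le_of_ne htA.1.2 ?_
    rintro rfl
    obtain ⟨y, hy1, hy2⟩ := big hn hr
    exact absurd (htA.2 y hy1) (not_le.2 hy2)
  obtain ⟨x, hxS, hxQ⟩ : ∃ x ∈ S n, Q (DD r t) x = 0 := by
    by_contra hcon
    push Not at hcon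
    have hneg : ∀ x ∈ S n, Q (DD r t) x < 0 := fun x hx =>
      lt_of_le_of_ne (htA.2 x hx.1) (hcon x hx)
    have hev := (isCompact_S n).eventually_forall_of_forall_eventually (x₀ := t)
      (P := fun s x => Q (DD r s) x < 0)
      (fun x hx => (isOpen_lt hcont continuous_const).mem_nhds (hneg x hx))
    obtain ⟨ε, hε, h1⟩ := Metric.eventually_nhds_iff.1 hev
    have hm : 0 < min (ε / 2) (4 - t) := lt_min (by linarith) (by linarith)
    have hm1 : min (ε / 2) (4 - t) ≤ ε / 2 := min_le_left _ _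
    have hm2 : min (ε / 2) (4 - t) ≤ 4 - t := min_le_right _ _
    have h2 := h1 (y := t + min (ε / 2) (4 - t)) (by
      rw [Real.dist_eq, add_sub_cancel_left, abs_of_pos hm]
      linarith)
    have h3 := htmax (a := t + min (ε / 2) (4 - t))
      ⟨⟨by linarith [htA.1.1], by linarith⟩, scale_neg _ h2⟩
    linarith
  have ht0 : 0 < t := by
    refine lt_of_le_of_ne htA.1.1 ?_
    rintro rfl
    rw [Q_zero r x hxS.1, hxS.2] at hxQ
    norm_num at hxQ
  refine ⟨DD r t, DD_symm r t, DD_diag r t, fun i j h => ?_, fun i j k l hij hkl h => ?_, htA.2,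
    x, ?_, hxS.1, hxQ⟩
  · rw [DD_val r t h]
    exact Real.exp_pos _
  · rw [DD_val r t hij, DD_val r t hkl]
    refine Real.exp_lt_exp.2 (mul_lt_mul_of_pos_left ?_ ht0)
    exact_mod_cast N_lt hr h
  · rintro rfl
    have h1 := hxS.2
    simp at h1


/-! ### The positive half: points -/

/-- the quadratic form of the Gram matrix with the base point `o` -/
theorem gram_form {n : ℕ} (D : Fin n → Fin n → ℝ) (hs : ∀ i j, D i j = D j i)
    (hd : ∀ i, D i i = 0) (o : Fin n) (y : Fin n → ℝ) :
    ∑ i, ∑ j, y i * ((D i o + D o j - D i j) / 2) * y j =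
      -(1 / 2) * Q D (fun i => y i - (∑ k, y k) * (if i = o then 1 else 0)) := by
  obtain ⟨s, hsd⟩ : ∃ s, s = ∑ k, y k := ⟨_, rfl⟩
  obtain ⟨u, hu⟩ : ∃ u, u = ∑ k, y k * D k o := ⟨_, rfl⟩
  have e1 : ∑ i, ∑ j, y i * ((D i o + D o j - D i j) / 2) * y j = u * s - 1 / 2 * Q D y := by
    have h1 : ∀ i, ∑ j, y i * ((D i o + D o j - D i j) / 2) * y j =
        1 / 2 * (y i * D i o) * s + 1 / 2 * y i * u - 1 / 2 * ∑ j, D i j * y i * y j := by
      intro i
      rw [hsd, hu, Finset.mul_sum, Finset.mul_sum, Finset.mul_sum, ← Finset.sum_add_distrib,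
        ← Finset.sum_sub_distrib]
      refine Finset.sum_congr rfl fun j _ => ?_
      rw [hs o j]
      ring
    rw [Finset.sum_congr rfl fun i _ => h1 i, Finset.sum_sub_distrib, Finset.sum_add_distrib,
      ← Finset.sum_mul, ← Finset.sum_mul, ← Finset.mul_sum, ← Finset.mul_sum, ← Finset.mul_sum,
      ← hsd, ← hu]
    unfold Q
    ring
  have e2 : Q D (fun i => y i - s * (if i = o then 1 else 0)) = Q D y - 2 * s * u := by
    unfold Q
    have h1 : ∀ i, ∑ j, D i j * (y i - s * (if i = o then 1 else 0)) *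
        (y j - s * (if j = o then 1 else 0)) = ∑ j, D i j * y i * y j - s * (y i * D i o) -
          (if i = o then s * (∑ j, D i j * y j - s * D i o) else 0) := by
      intro i
      have h2 : ∀ j, D i j * (y i - s * (if i = o then 1 else 0)) *
          (y j - s * (if j = o then 1 else 0)) = D i j * y i * y j -
            (if j = o then s * (y i * D i j) else 0) -
            (if i = o then s * (D i j * y j) - (if j = o then s * (s * D i j) else 0) else 0) := by
        intro j
        split_ifs <;> ring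
      rw [Finset.sum_congr rfl fun j _ => h2 j, Finset.sum_sub_distrib, Finset.sum_sub_distrib,
        Finset.sum_ite_eq' Finset.univ o, if_pos (Finset.mem_univ o)]
      congr 1
      split_ifs with h
      · rw [Finset.sum_sub_distrib, Finset.sum_ite_eq' Finset.univ o, if_pos (Finset.mem_univ o),
          ← Finset.mul_sum]
        ring
      · exact Finset.sum_const_zero
    rw [Finset.sum_congr rfl fun i _ => h1 i, Finset.sum_sub_distrib, Finset.sum_sub_distrib,
      Finset.sum_ite_eq' Finset.univ o, if_pos (Finset.mem_univ o), ← Finset.mul_sum, ← hu, hd o]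
    have h3 : ∑ j, D o j * y j = u := by
      rw [hu]
      exact Finset.sum_congr rfl fun j _ => by rw [hs o j, mul_comm]
    rw [h3]
    ring
  rw [e1, ← hsd, e2]
  ring

open scoped MatrixOrder Matrix.Norms.L2Operator in
theorem exists_vectors {n : ℕ} (A : Matrix (Fin n) (Fin n) ℝ) (hA : A.PosSemidef) :
    ∃ b : Fin n → EuclideanSpace ℝ (Fin n), ∀ i j, @inner ℝ _ _ (b i) (b j) = A i j := by
  obtain ⟨B, rfl⟩ := CStarAlgebra.nonneg_iff_eq_star_mul_self.mp hA.nonneg
  refine ⟨fun i => WithLp.toLp 2 (fun k => B k i), fun i j => ?_⟩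
  rw [EuclideanSpace.inner_eq_star_dotProduct]
  simp [Matrix.mul_apply, dotProduct, mul_comm]

theorem embed {n d : ℕ} (b : Fin n → EuclideanSpace ℝ (Fin n))
    (h : Module.finrank ℝ (Submodule.span ℝ (Set.range b)) ≤ d) :
    ∃ p : Fin n → EuclideanSpace ℝ (Fin d), ∀ i j, dist (p i) (p j) = dist (b i) (b j) := by
  classical
  set S := Submodule.span ℝ (Set.range b) with hS
  let e := stdOrthonormalBasis ℝ S
  let g : Fin (Module.finrank ℝ S) → EuclideanSpace ℝ (Fin d) :=
    fun i => EuclideanSpace.basisFun (Fin d) ℝ (Fin.castLE h i)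
  let f : S →ₗ[ℝ] EuclideanSpace ℝ (Fin d) := e.toBasis.constr ℝ g
  have hf : ∀ i, f (e i) = g i := fun i => by
    have h1 := e.toBasis.constr_basis ℝ g i
    rwa [OrthonormalBasis.coe_toBasis] at h1
  have hg : Orthonormal ℝ g :=
    (EuclideanSpace.basisFun (Fin d) ℝ).orthonormal.comp _ (Fin.castLE_injective h)
  have hfo : Orthonormal ℝ (f ∘ e.toBasis) := by
    have h1 : f ∘ e.toBasis = g := by
      funext i
      rw [Function.comp_apply, OrthonormalBasis.coe_toBasis]
      exact hf i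
    rw [h1]
    exact hg
  have heo : Orthonormal ℝ e.toBasis := by
    rw [OrthonormalBasis.coe_toBasis]
    exact e.orthonormal
  let L := f.isometryOfOrthonormal heo hfo
  refine ⟨fun i => L ⟨b i, Submodule.subset_span ⟨i, rfl⟩⟩, fun i j => ?_⟩
  rw [L.dist_map]
  rfl

theorem partB {n d : ℕ} (hn : n ≤ d + 2) (h0 : 0 < n) (D : Fin n → Fin n → ℝ)
    (hs : ∀ i j, D i j = D j i) (hd : ∀ i, D i i = 0)
    (hneg : ∀ x : Fin n → ℝ, ∑ i, x i = 0 → Q D x ≤ 0) (x : Fin n → ℝ) (hx0 : x ≠ 0)
    (hxs : ∑ i, x i = 0) (hQ : Q D x = 0) :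
    ∃ p : Fin n → EuclideanSpace ℝ (Fin d), ∀ i j, dist (p i) (p j) ^ 2 = D i j := by
  classical
  let o : Fin n := ⟨0, h0⟩
  let A : Matrix (Fin n) (Fin n) ℝ := Matrix.of fun i j => (D i o + D o j - D i j) / 2
  have hAij : ∀ i j, A i j = (D i o + D o j - D i j) / 2 := fun _ _ => rfl
  have hA : A.PosSemidef := by
    refine Matrix.PosSemidef.of_dotProduct_mulVec_nonneg ?_ ?_
    · ext i j
      rw [Matrix.conjTranspose_apply, hAij, hAij, star_trivial, hs i o, hs o j, hs i j]
      ring
    · intro y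
      have h1 : star y ⬝ᵥ A.mulVec y = ∑ i, ∑ j, y i * ((D i o + D o j - D i j) / 2) * y j := by
        simp only [dotProduct, Matrix.mulVec, star_trivial, Finset.mul_sum, hAij]
        refine Finset.sum_congr rfl fun i _ => Finset.sum_congr rfl fun j _ => by ring
      rw [h1, gram_form D hs hd o y]
      have h2 := hneg (fun i => y i - (∑ k, y k) * (if i = o then 1 else 0)) (by
        rw [Finset.sum_sub_distrib, ← Finset.mul_sum, Finset.sum_ite_eq' Finset.univ o,
          if_pos (Finset.mem_univ o), mul_one, sub_self])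
      linarith
  obtain ⟨b, hb⟩ := exists_vectors A hA
  -- the span
  have hb0 : b o = 0 := by
    have h1 := hb o o
    rw [hAij, hd] at h1
    rw [← inner_self_eq_zero (𝕜 := ℝ), h1]
    ring
  have hbx : ∑ i, x i • b i = 0 := by
    rw [← inner_self_eq_zero (𝕜 := ℝ), sum_inner]
    have h1 : ∀ i, @inner ℝ _ _ (x i • b i) (∑ j, x j • b j) =
        ∑ j, x i * ((D i o + D o j - D i j) / 2) * x j := by
      intro i
      rw [inner_sum]
      refine Finset.sum_congr rfl fun j _ => ?_
      rw [inner_smul_left, inner_smul_right, hb, hAij]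
      simp only [conj_trivial]
      ring
    rw [Finset.sum_congr rfl fun i _ => h1 i, gram_form D hs hd o x, hxs]
    simp only [zero_mul, sub_zero]
    rw [hQ, mul_zero]
  have hfin : Module.finrank ℝ (Submodule.span ℝ (Set.range b)) ≤ d := by
    let T := Fintype.linearCombination ℝ b
    have h1 : LinearMap.range T = Submodule.span ℝ (Set.range b) :=
      Fintype.range_linearCombination ℝ b
    have h2 := LinearMap.finrank_range_add_finrank_ker T
    rw [h1, Module.finrank_fintype_fun_eq_card, Fintype.card_fin] at h2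
    have k1 : (Pi.single o 1 : Fin n → ℝ) ∈ LinearMap.ker T := by
      rw [LinearMap.mem_ker, Fintype.linearCombination_apply,
        Finset.sum_eq_single o (fun i _ hi => by rw [Pi.single_eq_of_ne hi, zero_smul])
          (fun h => absurd (Finset.mem_univ o) h), hb0, smul_zero]
    have k2 : x ∈ LinearMap.ker T := by
      rw [LinearMap.mem_ker, Fintype.linearCombination_apply]
      exact hbx
    have h3 : LinearIndependent ℝ ![(⟨_, k1⟩ : LinearMap.ker T), ⟨x, k2⟩] := by
      rw [LinearIndependent.pair_iff]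
      intro s t hst
      have h4 : s • (Pi.single o 1 : Fin n → ℝ) + t • x = 0 := congrArg Subtype.val hst
      have h5 : s = 0 := by
        have h6 : ∑ i, (s • (Pi.single o 1 : Fin n → ℝ) + t • x) i = 0 := by
          rw [h4]
          simp
        simp only [Pi.add_apply, Pi.smul_apply, smul_eq_mul, Finset.sum_add_distrib,
          ← Finset.mul_sum, hxs, mul_zero, add_zero] at h6
        rw [Finset.sum_pi_single' o (1 : ℝ) Finset.univ, if_pos (Finset.mem_univ o), mul_one] at h6
        exact h6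
      refine ⟨h5, ?_⟩
      rw [h5, zero_smul, zero_add] at h4
      exact (smul_eq_zero.1 h4).resolve_right hx0
    have h4 := h3.fintype_card_le_finrank
    rw [Fintype.card_fin] at h4
    omega
  obtain ⟨p, hp⟩ := embed (d := d) b hfin
  refine ⟨p, fun i j => ?_⟩
  rw [hp, dist_eq_norm, norm_sub_sq_real, ← real_inner_self_eq_norm_sq,
    ← real_inner_self_eq_norm_sq, hb, hb, hb, hAij, hAij, hAij, hd i, hd j, hs o i, hs o j]
  ring


/-- every strict order of the pairs of `n ≤ d + 2` points is realizable in `ℝ ^ d` -/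
theorem realizable_of_le {n d : ℕ} (h : n ≤ d + 2) (r : Pairs n → Pairs n → Prop)
    (hr : IsStrictTotalOrder (Pairs n) r) : Realizable n d r := by
  by_cases hn : 3 ≤ n
  · obtain ⟨D, h1, h2, h3, h4, h5, x, h6, h7, h8⟩ := partA hn r hr
    obtain ⟨p, hp⟩ := partB h (by omega) D h1 h2 h5 x h6 h7 h8
    refine ⟨p, fun i j k l hij hkl hrr => ?_⟩
    have h9 := h4 i j k l hij hkl hrr
    rw [← hp, ← hp] at h9
    exact lt_of_pow_lt_pow_left₀ 2 dist_nonneg h9
  · refine ⟨fun _ => 0, fun i j k l hij hkl hrr => ?_⟩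
    exfalso
    have hi := i.isLt
    have hj := j.isLt
    have hk := k.isLt
    have hl := l.isLt
    have hij' : i.val ≠ j.val := fun h => hij (Fin.ext h)
    have hkl' : k.val ≠ l.val := fun h => hkl (Fin.ext h)
    have he : pair i j hij = pair k l hkl := by
      apply Subtype.ext
      change s(i, j) = s(k, l)
      rw [Sym2.eq_iff, Fin.ext_iff, Fin.ext_iff, Fin.ext_iff, Fin.ext_iff]
      omega
    rw [he] at hrr
    exact irrefl_of r _ hrr

/-- the margin for the order `ord n` -/
theorem ord_margin (n d : ℕ) (hn : d + 3 ≤ n) : ∃ δ : ℝ, 0 < δ ∧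
    ∀ p : Fin n → EuclideanSpace ℝ (Fin d),
      ∃ (c u v : Fin n) (hu : c ≠ u) (hv : c ≠ v), ord n (pair c u hu) (pair c v hv) ∧
        ∀ a b : Fin n, dist (p c) (p v) + δ * dist (p a) (p b) ≤ dist (p c) (p u) := by
  classical
  obtain ⟨δ, hδ, hmar⟩ := margin (d := d) hn
  refine ⟨δ, hδ, fun p => ?_⟩
  have hne : (Finset.univ : Finset (Fin n × Fin n)).Nonempty :=
    ⟨(⟨0, by omega⟩, ⟨0, by omega⟩), Finset.mem_univ _⟩
  obtain ⟨⟨a₀, b₀⟩, -, hm⟩ := Finset.exists_max_image Finset.univ
    (fun ab : Fin n × Fin n => dist (p ab.1) (p ab.2)) hne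
  have hmax : ∀ a b : Fin n, dist (p a) (p b) ≤ dist (p a₀) (p b₀) := fun a b =>
    hm (a, b) (Finset.mem_univ _)
  rcases (dist_nonneg (x := p a₀) (y := p b₀)).eq_or_lt with h0 | h0
  · -- all points coincide
    have hz : ∀ a b : Fin n, dist (p a) (p b) = 0 := fun a b =>
      le_antisymm ((hmax a b).trans h0.symm.le) dist_nonneg
    have h01 : (⟨0, by omega⟩ : Fin n) < ⟨1, by omega⟩ := by
      rw [Fin.mk_lt_mk]; norm_num
    have h12 : (⟨1, by omega⟩ : Fin n) < ⟨2, by omega⟩ := by
      rw [Fin.mk_lt_mk]; norm_num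
    refine ⟨⟨0, by omega⟩, ⟨2, by omega⟩, ⟨1, by omega⟩, (h01.trans h12).ne, h01.ne,
      key_lt (h01.trans h12) h01 (Or.inr ⟨rfl, h12⟩), fun a b => ?_⟩
    rw [hz, hz, hz, mul_zero, add_zero]
  · obtain ⟨R, hR⟩ : ∃ R, R = dist (p a₀) (p b₀) := ⟨_, rfl⟩
    rw [← hR] at h0 hmax
    have hsc : ∀ a b : Fin n, dist (R⁻¹ • p a) (R⁻¹ • p b) = R⁻¹ * dist (p a) (p b) := by
      intro a b
      rw [dist_smul₀, Real.norm_eq_abs, abs_of_pos (inv_pos.2 h0)]
    obtain ⟨⟨c, u, v⟩, ht, h1⟩ := hmar (fun i => R⁻¹ • p i) (fun i j => by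
      rw [hsc]
      calc R⁻¹ * dist (p i) (p j) ≤ R⁻¹ * R :=
            mul_le_mul_of_nonneg_left (hmax i j) (inv_pos.2 h0).le
        _ = 1 := inv_mul_cancel₀ h0.ne') ⟨a₀, b₀, by
      rw [hsc, ← hR, inv_mul_cancel₀ h0.ne']⟩
    obtain ⟨hu, hv, hr⟩ := (mem_T _).1 ht
    refine ⟨c, u, v, hu, hv, hr, fun a b => ?_⟩
    simp only [hsc] at h1
    have h2 : R * (R⁻¹ * dist (p c) (p v) + δ) ≤ R * (R⁻¹ * dist (p c) (p u)) :=
      mul_le_mul_of_nonneg_left h1 h0.le
    rw [mul_add, mul_inv_cancel_left₀ h0.ne', mul_inv_cancel_left₀ h0.ne'] at h2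
    have h3 : δ * dist (p a) (p b) ≤ R * δ := by
      rw [mul_comm R δ]
      exact mul_le_mul_of_nonneg_left (hmax a b) hδ.le
    linarith


/-- **Realizability of distance orders for all `n` and `d`.** If `n ≤ d + 2` then every strict total
order on the pairs of `n` indices is the distance order of some `n` points of `ℝ ^ d`. For every `n`
there is one strict total order `r` on the pairs such that, for every `d ≤ n - 3` and some `δ > 0`,
every `n` points `p` of `ℝ ^ d` have a point `p c` and two others `p u`, `p v` with `{c, u}` before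
`{c, v}` but `|p c - p u| ≥ |p c - p v| + δ diam`. In particular no dimension `d ≥ 1` has
property `(*)`. -/
theorem result :
    (∀ n d : ℕ, n ≤ d + 2 → ∀ r : Pairs n → Pairs n → Prop, IsStrictTotalOrder (Pairs n) r →
      Realizable n d r) ∧
    (∀ n : ℕ, ∃ r : Pairs n → Pairs n → Prop, IsStrictTotalOrder (Pairs n) r ∧
      ∀ d : ℕ, d + 3 ≤ n → ∃ δ : ℝ, 0 < δ ∧ ∀ p : Fin n → EuclideanSpace ℝ (Fin d),
        ∃ (c u v : Fin n) (hu : c ≠ u) (hv : c ≠ v), r (pair c u hu) (pair c v hv) ∧
          ∀ a b : Fin n, dist (p c) (p v) + δ * dist (p a) (p b) ≤ dist (p c) (p u)) ∧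
    {d : ℕ | 1 ≤ d ∧ Star d} = ∅ :=
  ⟨fun _ _ h r hr => realizable_of_le h r hr,
    fun n => ⟨ord n, ord_isStrictTotalOrder n, fun d hn => ord_margin n d hn⟩, NoDim.result⟩

end Pool.Agent.Results.MP_154a23_co.TripletMargin
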